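import Pool.Agent.H93.GS.Defs
import Pool.Agent.H72.EN.Targets

/-!
# Theorem (G), MP_c59857_nt: statements of section 2 and of the final theorem

The energy `En` with the soft threshold: the inequality of one level, near-constancy of the
energy in two stages, the link between the stages, the final theorem.
-/

set_option autoImplicit false

namespace Pool.Agent.H93.GS

open Finset Pool.Agent.H6.N4D

/-! ## further definitions -/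

/-- the difference of the energies for the multiples of `q` -/
noncomputable def gapq (th : ℝ) (lam : ℕ → ℝ) (q P L n : ℕ) : ℝ :=
  (∑ j ∈ range P, En th lam q L (n + j * L)) / P - En th lam q (P * L) n

/-- the linear term -/
noncomputable def lin (lam : ℕ → ℝ) (q N n : ℕ) (g : Ex) : ℝ :=
  2 * (ar q N n (fun m => lam m * (g.f m).re) - ar 1 N n (fun m => lam m * (g.f m).re))

/-- the difference of the mean squares -/
noncomputable def nrm (q N n : ℕ) (g : Ex) : ℝ :=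
  ar q N n (fun m => ‖g.f m‖ ^ 2) - ar 1 N n (fun m => ‖g.f m‖ ^ 2)

/-- a large correlation on the multiples of `q` all of whose near lifts fail the test -/
def JF (lam : ℕ → ℝ) (q N n : ℕ) (th' δ c : ℝ) : Prop := ∃ β : ℝ, th' ≤ ‖EB.crq lam q N n β‖ ∧
  ∀ α : ℝ, (∃ b : ℤ, nd (α - β - (b : ℝ) / q) ≤ δ / N) → c ≤ EB.zz lam q N n α (fun _ => 1)

/-- the prime `q` is exceptional for the frequencies `γ i`, `i < r` -/
def Exc (q N r : ℕ) (γ : ℕ → ℝ) : Prop := ∃ i < r, ∃ i' < r, ∃ b : ℤ, ¬ ((q : ℤ) ∣ b) ∧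
  nd (γ i - γ i' - (b : ℝ) / q) ≤ (N : ℝ) ^ (-(1 / 2) : ℝ)

/-- the sum of the failures of the level `m` -/
noncomputable def bF (lam : ℕ → ℝ) (X m : ℕ) (th' δ c : ℝ) : ℝ :=
  EB.lg X (fun n => ∑ q ∈ EB.QQ m, 1 / (q : ℝ) * EB.ind (JF lam q (2 ^ m) n th' δ c))

/-- the defects of the level `m`, whole windows, `2 ^ p₀` pieces -/
noncomputable def gm (th : ℝ) (lam : ℕ → ℝ) (X p₀ m : ℕ) : ℝ :=
  EB.lg X (fun n => En th lam 1 (2 ^ (m - p₀)) n) - EB.lg X (fun n => En th lam 1 (2 ^ m) n)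

/-- the defects of the level `m`, multiples of the primes, `2 ^ p₀` pieces -/
noncomputable def gmq (th : ℝ) (lam : ℕ → ℝ) (X p₀ m : ℕ) : ℝ :=
  ∑ q ∈ EB.QQ m, 1 / (q : ℝ) * (EB.lg X (fun n => En th lam q (2 ^ (m - p₀)) n) -
    EB.lg X (fun n => En th lam q (2 ^ m) n))

/-- the sum over the primes of the level `m` of the changes of the energy -/
noncomputable def ch (th : ℝ) (lam : ℕ → ℝ) (X m : ℕ) : ℝ :=
  EB.lg X (fun n => ∑ q ∈ EB.QQ m, 1 / (q : ℝ) *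
    |En th lam q (2 ^ m) n - En th lam 1 (2 ^ m) n|)

/-! ## windows -/

/-- OPT. Optimal sums exist. -/
def T_OPT : Prop := ∀ (th : ℝ) (lam : ℕ → ℝ) (q N n : ℕ), 0 < th → th ≤ 1 →
  (∀ m, |lam m| ≤ 1) → 1 ≤ q → q ≤ N → ∃ g : Ex, Opt th lam q N n g ∧ g.nm ≤ 1 / th ∧
    0 ≤ En th lam q N n ∧ En th lam q N n ≤ 2 ∧ (q = 1 → En th lam q N n ≤ 1)

/-- CNV. The exact formula: defect = square of the distance + slack. -/
def T_CNV : Prop := ∀ (th : ℝ) (lam : ℕ → ℝ) (q N n : ℕ) (g h : Ex), 0 < th → 1 ≤ q → q ≤ N →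
  (∀ m, |lam m| ≤ 1) → Opt th lam q N n g →
  J th lam q N n h = En th lam q N n - d2 q N n h g -
    2 * ∑ i ∈ range h.k, (th * ‖h.c i‖ -
      ((starRingEnd ℂ) (h.c i) * rs lam q N n g (h.a i)).re)

/-- CLA. The upper bound of the energy on the multiples of `q` on a window. -/
def T_CLA : Prop := ∀ th : ℝ, 0 < th → th ≤ 1 → ∃ (κ c₁ δ C : ℝ) (p₀ r₀ N₀ : ℕ),
  0 < κ ∧ 0 < c₁ ∧ 0 < δ ∧ 0 < C ∧ ∀ (lam : ℕ → ℝ) (w n : ℕ) (g : Ex), N₀ ≤ w →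
    (∀ m, |lam m| ≤ 1) → Opt th lam 1 (2 ^ w) n g →
    ∃ γ : ℕ → ℝ, ∀ q : ℕ, q.Prime → q ^ 100 ≤ 2 ^ w →
      En th lam q (2 ^ w) n ≤ En th lam 1 (2 ^ w) n + lin lam q (2 ^ w) n g +
        C * (∑ i ∈ range r₀, zA lam q (2 ^ w) n (γ i) ^ 2 +
          EB.ind (κ < gap th lam (2 ^ p₀) (2 ^ (w - p₀)) n) +
          EB.ind (κ < gapq th lam q (2 ^ p₀) (2 ^ (w - p₀)) n) +
          EB.ind (JF lam q (2 ^ w) n (th / 2) δ c₁) + EB.ind (Exc q (2 ^ w) r₀ γ) +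
          (1 / 2) ^ (w / 4))

/-- BRK. The differences of the optimal sums of a window and of its pieces, tested with the
primes of the level: only one frequency at a time is needed. -/
def T_BRK : Prop := ∀ th : ℝ, 0 < th → th ≤ 1 → ∃ (κ C : ℝ) (p₀ N₀ : ℕ), 0 < κ ∧ 0 < C ∧
  ∀ (lam : ℕ → ℝ) (w n : ℕ) (g h : Ex) (A : ℝ), N₀ ≤ w → (∀ m, |lam m| ≤ 1) → 0 ≤ A →
    Opt th lam 1 (2 ^ w) n g → h.nm ≤ 1 / th → gap th lam (2 ^ p₀) (2 ^ (w - p₀)) n ≤ κ →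
    (∀ (α : ℝ) (v : ℕ → ℕ → ℂ), (∀ q ∈ EB.QQ w, EB.BV (2 ^ w) n (v q)) →
      ∑ q ∈ EB.QQ w, 1 / (q : ℝ) * EB.zz lam q (2 ^ w) n α (v q) ^ 2 ≤ A ^ 2) →
    ∑ q ∈ EB.QQ w, 1 / (q : ℝ) * |lin lam q (2 ^ w) n g - lin lam q (2 ^ w) n h| ≤
      C * A * Real.sqrt (En th lam 1 (2 ^ w) n - J th lam 1 (2 ^ w) n h)

/-- LVG. The inequality of one level. -/
def T_LVG : Prop := ∀ th : ℝ, 0 < th → th ≤ 1 → ∃ (κ c₁ δ C : ℝ) (p₀ m₁ : ℕ),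
  0 < κ ∧ 0 < c₁ ∧ 0 < δ ∧ 0 < C ∧ 4 * p₀ ≤ m₁ ∧
  ∀ (η : ℝ) (A X m : ℕ) (lam : ℕ → ℝ), 0 < η → η ≤ 1 → 2 ≤ A → 3 ≤ X → m₁ ≤ m → Lio lam →
    EB.lg X (fun n => En th lam 1 (2 ^ (m - m / 500)) n) -
        EB.lg X (fun n => En th lam 1 (2 ^ (A * m - m / 100)) n) ≤
      (1 + η) * (EB.lg X (fun n => En th lam 1 (2 ^ m) n) -
        EB.lg X (fun n => En th lam 1 (2 ^ (A * m)) n)) +
      C / η * (H72.EN.bA lam X m + bF lam X m (th / 2) δ c₁ + gm th lam X p₀ m +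
        gmq th lam X p₀ m + (1 / 2) ^ (m / 2000) * Real.log X + A * m + 1)

/-- CHG. The changes of the energy of one level. -/
def T_CHG : Prop := ∀ th : ℝ, 0 < th → th ≤ 1 → ∃ (κ c₁ δ C : ℝ) (p₀ m₁ : ℕ),
  0 < κ ∧ 0 < c₁ ∧ 0 < δ ∧ 0 < C ∧ 4 * p₀ ≤ m₁ ∧
  ∀ (X m : ℕ) (lam : ℕ → ℝ), 3 ≤ X → m₁ ≤ m → Lio lam →
    ch th lam X m ≤ C * (Real.sqrt (H72.EN.bA lam X m * Real.log X) + H72.EN.bA lam X m +
      bF lam X m (th / 2) δ c₁ + gm th lam X p₀ m +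
      gmq th lam X p₀ m + (1 / 2) ^ (m / 2000) * Real.log X + m + 1)

/-- MNG. The energy does not increase with the length. -/
def T_MNG : Prop := ∀ th : ℝ, 0 < th → th ≤ 1 → ∃ C : ℝ, 0 < C ∧
  ∀ (X k l q : ℕ) (lam : ℕ → ℝ), 3 ≤ X → (∀ n, |lam n| ≤ 1) → k ≤ l → 1 ≤ q → q ≤ 2 ^ k →
    EB.lg X (fun n => En th lam q (2 ^ l) n) ≤
      EB.lg X (fun n => En th lam q (2 ^ k) n) + C * (l + 1)

/-- GMQ. The defects for the multiples of the primes are summable over the levels. -/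
def T_GMQ : Prop := ∀ (th : ℝ) (p₀ : ℕ), 0 < th → th ≤ 1 → ∃ C : ℝ, 0 < C ∧
  ∀ (X m₀ me : ℕ) (lam : ℕ → ℝ), 3 ≤ X → (∀ n, |lam n| ≤ 1) → 1000 * (p₀ + 1) ≤ m₀ → m₀ ≤ me →
    ∑ m ∈ Icc m₀ me, 1 / (m : ℝ) * (gm th lam X p₀ m + gmq th lam X p₀ m) ≤
      C / m₀ * Real.log X + C * (me + 1) * (1 + Real.log me)

/-! ## near-constancy -/

/-- the output for section 3: tests, changes of the energy at the level `m` -/
def Hm (th ε : ℝ) (lam : ℕ → ℝ) (X m : ℕ) : Prop :=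
  H72.EN.bA lam X m ≤ ε * Real.log X ∧ ch th lam X m ≤ ε * Real.log X

/-- EN1. The energy is almost constant from a bounded scale to the powers of the logarithm. -/
def T_EN1 : Prop := ∀ th : ℝ, 0 < th → th ≤ 1 → ∃ B : ℕ, 1 ≤ B ∧ ∀ ε : ℝ, 0 < ε →
  ∃ e : ℝ, 0 < e ∧ ∀ R : ℕ, ∃ s₀ : ℕ, ∀ s, s₀ ≤ s → ∃ X₀ : ℕ, ∀ (X : ℕ) (lam : ℕ → ℝ),
    X₀ ≤ X → Lio lam → EB.Base lam R (2 ^ s) e X →
    ∀ k₀ k : ℕ, B * s ≤ k₀ → k₀ ≤ k → (16 : ℝ) ^ k ≤ Real.log X →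
      te th lam X k₀ - ε ≤ te th lam X k

/-- EN2. The energy is almost constant above the powers of `log log X`, with the output for
section 3. -/
def T_EN2 : Prop := ∀ th : ℝ, 0 < th → th ≤ 1 → ∃ B : ℕ, 1 ≤ B ∧ ∀ ε : ℝ, 0 < ε →
  ∃ e : ℝ, 0 < e ∧ ∀ R : ℕ, ∃ s₀ X₀ : ℕ, ∀ (s X : ℕ) (lam : ℕ → ℝ), s₀ ≤ s → X₀ ≤ X →
    Lio lam → Real.log (Real.log X) ≤ 2 ^ (s / B) → EB.Base lam R (2 ^ s) e X →
    (∀ k₀ k : ℕ, B * s ≤ k₀ → k₀ ≤ k → (k : ℝ) ≤ 2 * Real.log X ^ (24 / 25 : ℝ) →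
      te th lam X k₀ - ε ≤ te th lam X k) ∧
    ∀ m : ℕ, 2 * (B * s) ≤ m → (m : ℝ) ≤ Real.log X ^ (24 / 25 : ℝ) → Hm th ε lam X m

/-- LNK. Energy near one gives the structure which the second stage needs. -/
def T_LNK : Prop := ∀ th : ℝ, 0 < th → th ≤ 1 → ∃ (R' p₀ s₀ : ℕ), ∀ δ : ℝ, 0 < δ →
  ∃ ε : ℝ, 0 < ε ∧ ∀ (s X : ℕ) (lam : ℕ → ℝ), s₀ ≤ s → 3 ≤ X → (s : ℝ) ≤ ε * Real.log X →
    (∀ n, lam n = 1 ∨ lam n = -1) → 1 - δ ≤ te th lam X s →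
    te th lam X (s - p₀) - ε ≤ te th lam X s → EB.Base lam R' (2 ^ s) (2 * δ) X

/-- LOW. Structure at a scale gives energy near one, for a threshold which is small in terms of
the number of the exponentials. -/
def T_LOW : Prop := ∀ (th e : ℝ) (R s X : ℕ) (lam : ℕ → ℝ), 0 < th → 0 ≤ e → 3 ≤ X →
  (∀ n, lam n = 1 ∨ lam n = -1) → EB.Base lam R (2 ^ s) e X →
    1 - e - 2 * th * R ≤ te th lam X s

/-! ## the final theorem -/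

/-- `lam` is, in the mean over the windows of length `H`, at distance more than `1 / j` from all
sums of `R j` exponentials, for some `j ≤ K` -/
def Far1 (lam : ℕ → ℝ) (R : ℕ → ℕ) (K H X : ℕ) : Prop := ∃ j : ℕ, 1 ≤ j ∧ j ≤ K ∧
  ∀ (b : ℕ → ℕ → ℂ) (β : ℕ → ℕ → ℝ), (∀ n r, ‖b n r‖ ≤ 1) →
    1 / (j : ℝ) * Real.log X <
      EB.lg X (fun n => (∑ m ∈ Ioc n (n + H),
        ‖(lam m : ℂ) - ∑ r ∈ range (R j), b n r * ee (β n r * m)‖ ^ 2) / H)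

/-- GFT. No function with the properties of Liouville's function is almost periodic on windows. -/
def T_GFT : Prop := ∀ R : ℕ → ℕ, ∃ K : ℕ, 1 ≤ K ∧ ∀ H, K ≤ H → ∃ X₀ : ℕ, ∀ (X : ℕ)
  (lam : ℕ → ℝ), X₀ ≤ X → Lio lam → Far1 lam R K H X

/-- TOB. The conclusion of section 3: the energy at the top cannot be bounded below. -/
def T_E3 : Prop := ∀ th c : ℝ, 0 < th → th ≤ 1 → 0 < c → ∃ (ε : ℝ) (X₀ : ℕ), 0 < ε ∧
  ∀ (X a : ℕ) (lam : ℕ → ℝ), X₀ ≤ X → Lio lam → (a : ℝ) ≤ Real.log X ^ (1 / 2 : ℝ) →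
    (∀ m : ℕ, a ≤ m → (m : ℝ) ≤ Real.log X ^ (24 / 25 : ℝ) → Hm th ε lam X m) →
    (∀ k l : ℕ, a ≤ k → k ≤ l → (l : ℝ) ≤ 2 * Real.log X ^ (24 / 25 : ℝ) →
      te th lam X k - ε ≤ te th lam X l) → te th lam X a < c

end Pool.Agent.H93.GS
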