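import Pool.Agent.H93.GS.Link

/-!
# Theorem (G), MP_c59857_nt: the assembly
-/

set_option autoImplicit false

namespace Pool.Agent.H93.GS

open Finset Pool.Agent.H6.N4D Filter

lemma base_mono (lam : ℕ → ℝ) (R S X : ℕ) (e e' : ℝ) (hX : 3 ≤ X) (h : e ≤ e')
    (hB : EB.Base lam R S e X) : EB.Base lam R S e' X := by
  obtain ⟨b, β, hb, hB⟩ := hB
  refine ⟨b, β, hb, hB.trans ?_⟩
  have hX3 : (3 : ℝ) ≤ X := by exact_mod_cast hX
  exact mul_le_mul_of_nonneg_right h (Real.log_nonneg (by linarith))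

/-- the second scale -/
noncomputable def LL (X : ℕ) : ℕ := ⌊Real.logb 16 (Real.log X)⌋₊

lemma tendsto_LL : Tendsto LL atTop atTop := by
  unfold LL
  apply tendsto_nat_floor_atTop.comp
  apply (Real.tendsto_logb_atTop (by norm_num : (1 : ℝ) < 16)).comp
  exact Real.tendsto_log_atTop.comp tendsto_natCast_atTop_atTop

lemma LL_pow (X : ℕ) (hX : 3 ≤ X) : (16 : ℝ) ^ LL X ≤ Real.log X := by
  have hX3 : (3 : ℝ) ≤ X := by exact_mod_cast hX
  have h1 : 1 < Real.log X := by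
    rw [Real.lt_log_iff_exp_lt (by linarith)]
    linarith [Real.exp_one_lt_d9]
  have h2 : 0 ≤ Real.logb 16 (Real.log X) := Real.logb_nonneg (by norm_num) h1.le
  have h3 := Nat.floor_le h2
  unfold LL
  rw [← Real.rpow_natCast]
  calc (16 : ℝ) ^ ((⌊Real.logb 16 (Real.log X)⌋₊ : ℕ) : ℝ)
      ≤ (16 : ℝ) ^ (Real.logb 16 (Real.log X)) :=
        Real.rpow_le_rpow_of_exponent_le (by norm_num) h3
    _ = Real.log X := Real.rpow_logb (by norm_num) (by norm_num) (by linarith)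

lemma log_LL (X : ℕ) (hX : 3 ≤ X) : Real.log (Real.log X) ≤ 3 * ((LL X : ℝ) + 1) := by
  have hX3 : (3 : ℝ) ≤ X := by exact_mod_cast hX
  have h1 : 1 < Real.log X := by
    rw [Real.lt_log_iff_exp_lt (by linarith)]
    linarith [Real.exp_one_lt_d9]
  have h3 := Nat.lt_floor_add_one (Real.logb 16 (Real.log X))
  have h4 : Real.logb 16 (Real.log X) = Real.log (Real.log X) / Real.log 16 := rfl
  have h5 : Real.log 16 ≤ 3 := by
    rw [Real.log_le_iff_le_exp (by norm_num)]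
    have := Real.exp_one_gt_d9
    have h6 : Real.exp 3 = Real.exp 1 ^ 3 := by rw [← Real.exp_nat_mul]; norm_num
    rw [h6]
    calc (16 : ℝ) ≤ (2.7) ^ 3 := by norm_num
      _ ≤ Real.exp 1 ^ 3 := pow_le_pow_left₀ (by norm_num) (by linarith) 3
  have h6 : 0 < Real.log 16 := Real.log_pos (by norm_num)
  rw [h4, div_lt_iff₀ h6] at h3
  have h7 : (0 : ℝ) ≤ (LL X : ℝ) + 1 := by positivity
  have h8 : ((LL X : ℝ) + 1) * Real.log 16 ≤ ((LL X : ℝ) + 1) * 3 :=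
    mul_le_mul_of_nonneg_left h5 h7
  have h9 : Real.log (Real.log X) < ((LL X : ℝ) + 1) * Real.log 16 := h3
  linarith

lemma ev_pow (D : ℕ) (hD : 1 ≤ D) : ∀ᶠ L : ℕ in atTop, 3 * ((L : ℝ) + 1) ≤ 2 ^ (L / D) := by
  have h1 : Tendsto (fun n : ℕ => (n : ℝ) ^ 1 / (2 : ℝ) ^ n) atTop (nhds 0) :=
    tendsto_pow_const_div_const_pow_of_one_lt 1 (by norm_num)
  have h2 : ∀ᶠ n : ℕ in atTop, (n : ℝ) ^ 1 / (2 : ℝ) ^ n < 1 / (6 * D) :=
    h1.eventually (gt_mem_nhds (by positivity))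
  have h3 : Tendsto (fun L : ℕ => L / D) atTop atTop := by
    rw [tendsto_atTop]
    intro b
    filter_upwards [eventually_ge_atTop (b * D)] with L hL
    exact (Nat.le_div_iff_mul_le (by omega)).2 hL
  filter_upwards [h3.eventually h2, h3.eventually (eventually_ge_atTop 2)] with L hL hL2
  have hD0 : (0 : ℝ) < D := by exact_mod_cast hD
  rw [pow_one, div_lt_div_iff₀ (by positivity) (by positivity), one_mul] at hL
  have h4 : L + 1 ≤ 2 * (D * (L / D)) := by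
    have h5 : L < D * (L / D) + D := Nat.lt_mul_div_succ L (by omega)
    have h6 : D * 2 ≤ D * (L / D) := Nat.mul_le_mul_left D hL2
    omega
  have h5 : (L : ℝ) + 1 ≤ 2 * (D * ((L / D : ℕ) : ℝ)) := by exact_mod_cast h4
  nlinarith

/-- the conditions on `X` for the second stage -/
lemma ev_all (B c : ℕ) (hB : 1 ≤ B) : ∃ X₀ : ℕ, 3 ≤ X₀ ∧ ∀ X : ℕ, X₀ ≤ X →
    c ≤ LL X / (2 * B) ∧ Real.log (Real.log X) ≤ 2 ^ (LL X / (2 * B) / B) ∧
    ((LL X : ℕ) : ℝ) ≤ Real.log X ^ (1 / 2 : ℝ) := by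
  have h1 := tendsto_LL.eventually (ev_pow (2 * B * B) (by nlinarith))
  have h2 := tendsto_LL.eventually (eventually_ge_atTop (c * (2 * B)))
  have h3 : ∀ᶠ X : ℕ in atTop, (LL X : ℝ) ≤ 4 ^ LL X := by
    filter_upwards with X
    exact_mod_cast (Nat.lt_pow_self (by norm_num : 1 < 4)).le
  obtain ⟨X₀, hX₀⟩ := eventually_atTop.1 (h1.and (h2.and h3))
  refine ⟨X₀ + 3, Nat.le_add_left _ _, fun X hX => ?_⟩
  obtain ⟨h4, h5, h6⟩ := hX₀ X (by omega)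
  have hX3 : 3 ≤ X := by omega
  refine ⟨(Nat.le_div_iff_mul_le (by omega)).2 h5, ?_, ?_⟩
  · rw [Nat.div_div_eq_div_mul]
    exact (log_LL X hX3).trans h4
  · have h7 := LL_pow X hX3
    have h8 : ((4 : ℝ) ^ LL X) ^ 2 ≤ Real.log X := by
      rw [← pow_mul, mul_comm, pow_mul]; norm_num; exact h7
    rw [← Real.sqrt_eq_rpow]
    apply h6.trans
    exact Real.le_sqrt_of_sq_le h8

/-- GFU. The final theorem, uniformly for all lengths of the windows between a constant and a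
small power of `X`. -/
def T_GFU : Prop := ∀ R : ℕ → ℕ, ∃ K : ℕ, 1 ≤ K ∧ ∀ (X H : ℕ) (lam : ℕ → ℝ), K ≤ H →
  H ^ K ≤ X → Lio lam → Far1 lam R K H X

theorem a_GFU (hEN1 : T_EN1) (hEN2 : T_EN2) (hE3 : T_E3) : T_GFU := by
  intro R
  -- the first threshold
  set th : ℝ := 1 / (16 * ((R 8 : ℝ) + 1)) with hth
  have hth0 : 0 < th := by rw [hth]; positivity
  have hth1 : th ≤ 1 := by
    rw [hth, div_le_one (by positivity)]
    have : (0 : ℝ) ≤ R 8 := by positivity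
    linarith
  have hthR : 2 * th * R 8 ≤ 1 / 8 := by
    rw [hth]
    have h1 : (0 : ℝ) ≤ R 8 := by positivity
    rw [show 2 * (1 / (16 * ((R 8 : ℝ) + 1))) * R 8 = R 8 / (8 * ((R 8 : ℝ) + 1)) by
      field_simp; ring]
    rw [div_le_div_iff₀ (by positivity) (by norm_num)]
    linarith
  obtain ⟨ε₃, X₃, hε₃, hE3⟩ := hE3 th (1 / 4) hth0 hth1 (by norm_num)
  -- the second stage
  obtain ⟨B₂, hB₂, hEN2⟩ := hEN2 th hth0 hth1
  obtain ⟨e₂, he₂, hEN2⟩ := hEN2 ε₃ hε₃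
  set δ : ℝ := e₂ / 2 with hδ
  have hδ0 : 0 < δ := by rw [hδ]; positivity
  -- the second threshold
  obtain ⟨j₂, hj₂, hj₂'⟩ : ∃ j : ℕ, 1 ≤ j ∧ 3 * (1 / (j : ℝ)) ≤ δ / 2 := by
    obtain ⟨j, hj⟩ := exists_nat_gt (6 / δ)
    refine ⟨j + 1, by omega, ?_⟩
    have h1 : (0 : ℝ) < (j : ℝ) + 1 := by positivity
    rw [div_lt_iff₀ hδ0] at hj
    push_cast
    rw [mul_one_div, div_le_div_iff₀ h1 (by norm_num)]
    nlinarith
  set th' : ℝ := min 1 (δ / (8 * ((R j₂ : ℝ) + 1))) with hth'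
  have hth'0 : 0 < th' := lt_min one_pos (by positivity)
  have hth'1 : th' ≤ 1 := min_le_left _ _
  have hth'R : 2 * th' * R j₂ ≤ δ / 4 := by
    have h1 : (0 : ℝ) ≤ R j₂ := by positivity
    have h2 : th' ≤ δ / (8 * ((R j₂ : ℝ) + 1)) := min_le_right _ _
    calc 2 * th' * R j₂ ≤ 2 * (δ / (8 * ((R j₂ : ℝ) + 1))) * R j₂ := by gcongr
      _ = δ / 4 * (R j₂ / ((R j₂ : ℝ) + 1)) := by field_simp; ring
      _ ≤ δ / 4 * 1 := by
          apply mul_le_mul_of_nonneg_left _ (by positivity)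
          rw [div_le_one (by positivity)]; linarith
      _ = δ / 4 := mul_one _
  obtain ⟨R', XL, hLNK⟩ := lnk2 th' δ hth'0 hδ0
  obtain ⟨s₂, X₂, hEN2⟩ := hEN2 R'
  -- the first stage, twice
  obtain ⟨B₁, hB₁, hA⟩ := hEN1 th hth0 hth1
  obtain ⟨e₁, he₁, hA⟩ := hA (1 / 16) (by norm_num)
  obtain ⟨B₁', hB₁', hA'⟩ := hEN1 th' hth'0 hth'1
  obtain ⟨e₁', he₁', hA'⟩ := hA' (δ / 4) (by positivity)
  obtain ⟨j₁, hj₁, hj₁'⟩ : ∃ j : ℕ, 1 ≤ j ∧ 3 * (1 / (j : ℝ)) ≤ e₁ := by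
    obtain ⟨j, hj⟩ := exists_nat_gt (3 / e₁)
    refine ⟨j + 1, by omega, ?_⟩
    have h1 : (0 : ℝ) < (j : ℝ) + 1 := by positivity
    rw [div_lt_iff₀ he₁] at hj
    push_cast
    rw [mul_one_div, div_le_iff₀ h1]
    nlinarith
  obtain ⟨j₁', hj₁p, hj₁p'⟩ : ∃ j : ℕ, 1 ≤ j ∧ 3 * (1 / (j : ℝ)) ≤ e₁' := by
    obtain ⟨j, hj⟩ := exists_nat_gt (3 / e₁')
    refine ⟨j + 1, by omega, ?_⟩
    have h1 : (0 : ℝ) < (j : ℝ) + 1 := by positivity
    rw [div_lt_iff₀ he₁'] at hj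
    push_cast
    rw [mul_one_div, div_le_iff₀ h1]
    nlinarith
  obtain ⟨s₁, hA⟩ := hA (R j₁)
  obtain ⟨s₁', hA'⟩ := hA' (R j₁')
  set s : ℕ := max s₁ s₁' with hs
  obtain ⟨X₁, hA⟩ := hA s (le_max_left _ _)
  obtain ⟨X₁', hA'⟩ := hA' s (le_max_right _ _)
  set k₀ : ℕ := max (B₁ * s) (B₁' * s) with hk₀
  obtain ⟨X₄, hX₄, hX₄'⟩ := ev_all B₂ (max s₂ k₀) hB₂
  -- the constant for the windows inside windows
  set W : ℝ := (3 * (1 + (R 8 : ℝ)) ^ 2 + 3 * (1 + (R j₁ : ℝ)) ^ 2 + 3 * (1 + (R j₁' : ℝ)) ^ 2 +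
    3 * (1 + (R j₂ : ℝ)) ^ 2) * (8 + j₁ + j₁' + j₂) with hW
  have hW0 : 0 ≤ W := by rw [hW]; positivity
  set K₀ : ℕ := 8 + j₁ + j₁' + j₂ + 2 * 2 ^ s + 2 * 2 ^ k₀ with hK₀
  set K : ℕ := K₀ + (X₁ + X₁' + X₂ + X₃ + X₄ + XL + ⌈2 * W⌉₊ + ⌈Real.exp (2 * W)⌉₊) with hK
  refine ⟨K, by omega, fun X H lam hH hHX hL => ?_⟩
  have hK1 : 1 ≤ K := by omega
  have hH1 : 1 ≤ H := by omega
  have hHX1 : H ≤ X := by
    calc H = H ^ 1 := (pow_one H).symm
      _ ≤ H ^ K := Nat.pow_le_pow_right hH1 hK1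
      _ ≤ X := hHX
  have hX : K ≤ X := hH.trans hHX1
  by_contra hF
  unfold Far1 at hF
  push Not at hF
  have hX3 : 3 ≤ X := by omega
  have hX3' : (3 : ℝ) ≤ X := by exact_mod_cast hX3
  have hlog : 0 < Real.log X := Real.log_pos (by linarith)
  have hl1 : ∀ n, |lam n| ≤ 1 := by
    intro n
    rcases hL.pm n with h | h <;> rw [h] <;> norm_num
  have hlW1 : 2 * W ≤ Real.log X := by
    rw [Real.le_log_iff_exp_le (by linarith)]
    calc Real.exp (2 * W) ≤ ⌈Real.exp (2 * W)⌉₊ := Nat.le_ceil _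
      _ ≤ X := by
        have : ⌈Real.exp (2 * W)⌉₊ ≤ X := by omega
        exact_mod_cast this
  have hlW2 : K * Real.log H ≤ Real.log X := by
    rw [← Real.log_pow]
    apply Real.log_le_log
    · have : (0 : ℝ) < H := by exact_mod_cast hH1
      positivity
    · exact_mod_cast hHX
  have hlH0 : 0 ≤ Real.log H := Real.log_natCast_nonneg H
  have hlW : W * EB.hs H ≤ Real.log X := by
    have h1 : EB.hs H ≤ 1 + Real.log H := EB.hs_le H
    have h2 : 2 * W ≤ K := by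
      calc 2 * W ≤ ⌈2 * W⌉₊ := Nat.le_ceil _
        _ ≤ K := by
          have : ⌈2 * W⌉₊ ≤ K := by omega
          exact_mod_cast this
    have h3 : 2 * W * Real.log H ≤ K * Real.log H := mul_le_mul_of_nonneg_right h2 hlH0
    have h4 : W * EB.hs H ≤ W * (1 + Real.log H) := mul_le_mul_of_nonneg_left h1 hW0
    linarith
  have hsub : ∀ j N : ℕ, (j = 8 ∨ j = j₁ ∨ j = j₁' ∨ j = j₂) → (N = 2 ^ s ∨ N = 2 ^ k₀) →
      EB.Base lam (R j) N (3 * (1 / (j : ℝ))) X := by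
    intro j N hj hN
    have hj1 : 1 ≤ j := by rcases hj with h | h | h | h <;> omega
    have hj2 : j ≤ K := by
      rcases hj with h | h | h | h <;> omega
    have hN1 : 1 ≤ N := by
      rcases hN with h | h <;> rw [h] <;> exact Nat.one_le_two_pow
    have hN2 : 2 * N ≤ H := by
      rcases hN with h | h <;> rw [h] <;> omega
    obtain ⟨b, β, hb, hB⟩ := hF j hj1 hj2
    apply subw lam (R j) H N X (1 / (j : ℝ)) hN1 hN2 hl1 ⟨b, β, hb, hB⟩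
    have hj0 : (0 : ℝ) < j := by exact_mod_cast hj1
    rw [one_div, inv_mul_eq_div, le_div_iff₀ hj0]
    refine le_trans ?_ hlW
    rw [hW]
    have hh := EB.hs_nonneg H
    have hre : (3 * (1 + (R 8 : ℝ)) ^ 2 + 3 * (1 + (R j₁ : ℝ)) ^ 2 + 3 * (1 + (R j₁' : ℝ)) ^ 2 +
      3 * (1 + (R j₂ : ℝ)) ^ 2) * (8 + j₁ + j₁' + j₂) * EB.hs H =
      (3 * (1 + (R 8 : ℝ)) ^ 2 + 3 * (1 + (R j₁ : ℝ)) ^ 2 + 3 * (1 + (R j₁' : ℝ)) ^ 2 +
      3 * (1 + (R j₂ : ℝ)) ^ 2) * EB.hs H * (8 + j₁ + j₁' + j₂) := by ring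
    rw [hre]
    have a1 : (0 : ℝ) ≤ 3 * (1 + (R 8 : ℝ)) ^ 2 := by positivity
    have a2 : (0 : ℝ) ≤ 3 * (1 + (R j₁ : ℝ)) ^ 2 := by positivity
    have a3 : (0 : ℝ) ≤ 3 * (1 + (R j₁' : ℝ)) ^ 2 := by positivity
    have a4 : (0 : ℝ) ≤ 3 * (1 + (R j₂ : ℝ)) ^ 2 := by positivity
    have b1 : (0 : ℝ) ≤ j₁ := by positivity
    have b2 : (0 : ℝ) ≤ j₁' := by positivity
    have b3 : (0 : ℝ) ≤ j₂ := by positivity
    apply mul_le_mul _ _ hj0.le (by positivity)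
    · apply mul_le_mul_of_nonneg_right _ hh
      rcases hj with h | h | h | h <;> rw [h] <;> linarith
    · rcases hj with h | h | h | h <;> rw [h] <;> push_cast <;> linarith
  -- energies at the beginning
  have hE1 : 1 / 2 ≤ te th lam X k₀ := by
    have h1 := pf_LOW th (3 * (1 / ((8 : ℕ) : ℝ))) (R 8) k₀ X lam hth0 (by positivity) hX3 hL.pm
      (hsub 8 (2 ^ k₀) (Or.inl rfl) (Or.inr rfl))
    have h2 : (3 : ℝ) * (1 / ((8 : ℕ) : ℝ)) = 3 / 8 := by norm_num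
    rw [h2] at h1
    linarith
  have hE2 : 1 - 3 / 4 * δ ≤ te th' lam X k₀ := by
    have h1 := pf_LOW th' (3 * (1 / (j₂ : ℝ))) (R j₂) k₀ X lam hth'0 (by positivity) hX3 hL.pm
      (hsub j₂ (2 ^ k₀) (Or.inr (Or.inr (Or.inr rfl))) (Or.inr rfl))
    linarith
  -- the first stage
  have hS1 := hA X lam (by omega) hL (base_mono lam _ _ X _ _ hX3 hj₁'
    (hsub j₁ (2 ^ s) (Or.inr (Or.inl rfl)) (Or.inl rfl)))
  have hS1' := hA' X lam (by omega) hL (base_mono lam _ _ X _ _ hX3 hj₁p'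
    (hsub j₁' (2 ^ s) (Or.inr (Or.inr (Or.inl rfl))) (Or.inl rfl)))
  obtain ⟨hc1, hc2, hc3⟩ := hX₄' X (by omega)
  have hLp := LL_pow X hX3
  set L : ℕ := LL X with hLdef
  set s' : ℕ := L / (2 * B₂) with hs'
  have hs'1 : 2 * (B₂ * s') ≤ L := by
    rw [hs', ← mul_assoc]
    exact Nat.mul_div_le L (2 * B₂)
  have hs'2 : s' ≤ L := Nat.div_le_self _ _
  have hpow : ∀ k ≤ L, (16 : ℝ) ^ k ≤ Real.log X := fun k hk =>
    (pow_le_pow_right₀ (by norm_num) hk).trans hLp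
  have hk₀s : k₀ ≤ s' := le_trans (le_max_right _ _) hc1
  have hT1 : 1 - δ ≤ te th' lam X s' := by
    have h1 := hS1' k₀ s' (le_max_right _ _) hk₀s (hpow s' hs'2)
    linarith
  have hBase := hLNK s' X lam (by omega) hL.pm hT1
  have hδe : 2 * δ = e₂ := by rw [hδ]; ring
  rw [hδe] at hBase
  obtain ⟨hN, hHm⟩ := hEN2 s' X lam (le_trans (le_max_left _ _) hc1) (by omega) hL hc2 hBase
  -- the end
  have hle : k₀ ≤ 2 * (B₂ * s') := by
    have : s' ≤ B₂ * s' := Nat.le_mul_of_pos_left _ (by omega)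
    omega
  have hT2 : 7 / 16 ≤ te th lam X (2 * (B₂ * s')) := by
    have h1 := hS1 k₀ (2 * (B₂ * s')) (le_max_left _ _) hle (hpow _ hs'1)
    linarith
  have hfin := hE3 X (2 * (B₂ * s')) lam (by omega) hL
    (le_trans (by exact_mod_cast hs'1) hc3) (fun m hm hm2 => hHm m hm hm2)
    (fun k l hk hkl hl2 => hN k l (by omega) hkl hl2)
  linarith

/-- the form with the length of the windows fixed -/
theorem gft_of_gfu (h : T_GFU) : T_GFT := by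
  intro R
  obtain ⟨K, hK, h⟩ := h R
  exact ⟨K, hK, fun H hH => ⟨H ^ K, fun X lam hX hL => h X H lam hH hX hL⟩⟩

theorem a_GFT (hEN1 : T_EN1) (hEN2 : T_EN2) (hE3 : T_E3) : T_GFT :=
  gft_of_gfu (a_GFU hEN1 hEN2 hE3)

end Pool.Agent.H93.GS
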