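import Pool.Agent.H93.EB.Targets

/-!
# Theorem (G), MP_c59857_nt: the soft threshold energy, definitions

Windows are the sets `Ioc n (n + N)`; `q` is a natural number and only the multiples of `q` are
counted (`q = 1`: the whole window). `th` is the threshold.
-/

set_option autoImplicit false

namespace Pool.Agent.H93.GS

open Finset Pool.Agent.H6.N4D

/-- finite sums of exponentials -/
structure Ex where
  k : ℕ
  c : ℕ → ℂ
  a : ℕ → ℝ

/-- the value -/
noncomputable def Ex.f (g : Ex) (m : ℕ) : ℂ := ∑ i ∈ range g.k, g.c i * ee (g.a i * m)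

/-- the sum of the absolute values of the coefficients -/
noncomputable def Ex.nm (g : Ex) : ℝ := ∑ i ∈ range g.k, ‖g.c i‖

/-- the mean over the multiples of `q` in the window -/
noncomputable def ar (q N n : ℕ) (F : ℕ → ℝ) : ℝ :=
  (∑ m ∈ (Ioc n (n + N)).filter (fun m => q ∣ m), F m) * q / N

/-- the mean over the multiples of `q` in the window, complex values -/
noncomputable def ac (q N n : ℕ) (F : ℕ → ℂ) : ℂ :=
  (∑ m ∈ (Ioc n (n + N)).filter (fun m => q ∣ m), F m) * q / N

/-- the functional `2 Re <lam, g> - |g|^2 - 2 th |g|_A` on the multiples of `q` in the window -/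
noncomputable def J (th : ℝ) (lam : ℕ → ℝ) (q N n : ℕ) (g : Ex) : ℝ :=
  ar q N n (fun m => 2 * lam m * (g.f m).re - ‖g.f m‖ ^ 2) - 2 * th * g.nm

/-- the energy with the soft threshold `th` -/
noncomputable def En (th : ℝ) (lam : ℕ → ℝ) (q N n : ℕ) : ℝ := ⨆ g : Ex, J th lam q N n g

/-- the mean square of the difference of two sums -/
noncomputable def d2 (q N n : ℕ) (g h : Ex) : ℝ := ar q N n (fun m => ‖g.f m - h.f m‖ ^ 2)

/-- the Fourier coefficient of `lam - g` on the multiples of `q` in the window -/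
noncomputable def rs (lam : ℕ → ℝ) (q N n : ℕ) (g : Ex) (β : ℝ) : ℂ :=
  ac q N n (fun m => ((lam m : ℂ) - g.f m) * ee (-(β * m)))

/-- `g` is optimal: the coefficients are not zero, the frequencies are different modulo one, and
the conditions of Karush, Kuhn and Tucker hold -/
structure Opt (th : ℝ) (lam : ℕ → ℝ) (q N n : ℕ) (g : Ex) : Prop where
  mx : J th lam q N n g = En th lam q N n
  nz : ∀ i < g.k, g.c i ≠ 0
  df : ∀ β : ℝ, ‖rs lam q N n g β‖ ≤ th
  kt : ∀ i < g.k, rs lam q N n g (g.a i) = th * g.c i / ‖g.c i‖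

/-- the difference of the energies of the `P` pieces of length `L` and of the window of length
`P L` -/
noncomputable def gap (th : ℝ) (lam : ℕ → ℝ) (P L n : ℕ) : ℝ :=
  (∑ j ∈ range P, En th lam 1 L (n + j * L)) / P - En th lam 1 (P * L) n

/-- the mean energy at the scale `2 ^ k` -/
noncomputable def te (th : ℝ) (lam : ℕ → ℝ) (X k : ℕ) : ℝ :=
  EB.lg X (fun n => En th lam 1 (2 ^ k) n) / Real.log X

/-- the largest test with weights of bounded variation at the frequency `γ` -/
noncomputable def zA (lam : ℕ → ℝ) (q N n : ℕ) (γ : ℝ) : ℝ :=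
  sSup {x | ∃ g : ℕ → ℂ, EB.BV N n g ∧ x = EB.zz lam q N n γ g}

end Pool.Agent.H93.GS
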