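import Pool.Agent.H93.GS.Targets
import Pool.Agent.H93.EB.Basic

/-!
# Theorem (G), MP_c59857_nt: LOW, LNK and windows inside windows
-/

set_option autoImplicit false

namespace Pool.Agent.H93.GS

open Finset Pool.Agent.H6.N4D

/-- the mean square distance on a window -/
noncomputable def dm (lam : ℕ → ℝ) (N n : ℕ) (G : ℕ → ℂ) : ℝ :=
  (∑ m ∈ Ioc n (n + N), ‖(lam m : ℂ) - G m‖ ^ 2) / N

lemma dm_nonneg (lam : ℕ → ℝ) (N n : ℕ) (G : ℕ → ℂ) : 0 ≤ dm lam N n G := by
  unfold dm; positivity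

lemma nm_nonneg (g : Ex) : 0 ≤ g.nm := sum_nonneg fun _ _ => norm_nonneg _

lemma ar_one (N n : ℕ) (F : ℕ → ℝ) : ar 1 N n F = (∑ m ∈ Ioc n (n + N), F m) / N := by
  unfold ar
  simp

lemma J_eq (th : ℝ) (lam : ℕ → ℝ) (N n : ℕ) (g : Ex) (hN : 0 < N)
    (hl : ∀ m, lam m = 1 ∨ lam m = -1) :
    J th lam 1 N n g = 1 - dm lam N n g.f - 2 * th * g.nm := by
  have hN0 : (0 : ℝ) < N := by exact_mod_cast hN
  unfold J dm
  rw [ar_one]
  have h : ∀ m ∈ Ioc n (n + N), 2 * lam m * (g.f m).re - ‖g.f m‖ ^ 2 =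
      1 - ‖(lam m : ℂ) - g.f m‖ ^ 2 := by
    intro m _
    rw [Complex.sq_norm, Complex.sq_norm, Complex.normSq_apply, Complex.normSq_apply]
    simp only [Complex.sub_re, Complex.sub_im, Complex.ofReal_re, Complex.ofReal_im]
    rcases hl m with h | h <;> rw [h] <;> ring
  rw [sum_congr rfl h, sum_sub_distrib]
  have h2 : ∑ m ∈ Ioc n (n + N), (1 : ℝ) = N := by simp
  rw [h2, sub_div, div_self hN0.ne']

lemma J_le_one (th : ℝ) (lam : ℕ → ℝ) (N n : ℕ) (g : Ex) (hN : 0 < N) (hth : 0 ≤ th)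
    (hl : ∀ m, lam m = 1 ∨ lam m = -1) : J th lam 1 N n g ≤ 1 := by
  rw [J_eq th lam N n g hN hl]
  have h1 := dm_nonneg lam N n g.f
  have h2 := mul_nonneg hth (nm_nonneg g)
  linarith

lemma bdd_J (th : ℝ) (lam : ℕ → ℝ) (N n : ℕ) (hN : 0 < N) (hth : 0 ≤ th)
    (hl : ∀ m, lam m = 1 ∨ lam m = -1) : BddAbove (Set.range fun g : Ex => J th lam 1 N n g) :=
  ⟨1, by rintro _ ⟨g, rfl⟩; exact J_le_one th lam N n g hN hth hl⟩

lemma J_le_En (th : ℝ) (lam : ℕ → ℝ) (N n : ℕ) (hN : 0 < N) (hth : 0 ≤ th)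
    (hl : ∀ m, lam m = 1 ∨ lam m = -1) (g : Ex) : J th lam 1 N n g ≤ En th lam 1 N n :=
  le_ciSup (bdd_J th lam N n hN hth hl) g

/-- the empty sum -/
def Ex0 : Ex := ⟨0, fun _ => 0, fun _ => 0⟩

lemma J_Ex0 (th : ℝ) (lam : ℕ → ℝ) (N n : ℕ) : J th lam 1 N n Ex0 = 0 := by
  unfold J ar Ex.nm Ex.f Ex0
  simp

lemma En_nonneg (th : ℝ) (lam : ℕ → ℝ) (N n : ℕ) (hN : 0 < N) (hth : 0 ≤ th)
    (hl : ∀ m, lam m = 1 ∨ lam m = -1) : 0 ≤ En th lam 1 N n := by
  rw [← J_Ex0 th lam N n]
  exact J_le_En th lam N n hN hth hl _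

instance : Nonempty Ex := ⟨Ex0⟩

lemma En_le_one (th : ℝ) (lam : ℕ → ℝ) (N n : ℕ) (hN : 0 < N) (hth : 0 ≤ th)
    (hl : ∀ m, lam m = 1 ∨ lam m = -1) : En th lam 1 N n ≤ 1 :=
  ciSup_le fun g => J_le_one th lam N n g hN hth hl

theorem pf_LOW : T_LOW := by
  intro th e R s X lam hth he hX hl hB
  obtain ⟨b, β, hb, hB⟩ := hB
  have hN : 0 < 2 ^ s := by positivity
  have hX0 : (3 : ℝ) ≤ X := by exact_mod_cast hX
  have hlog : 0 < Real.log X := Real.log_pos (by linarith)
  have h1 : ∀ n ∈ Icc 1 X, (1 - 2 * th * R) - (∑ m ∈ Ioc n (n + 2 ^ s),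
      ‖(lam m : ℂ) - ∑ r ∈ range R, b n r * ee (β n r * m)‖ ^ 2) / ((2 ^ s : ℕ) : ℝ) ≤
      En th lam 1 (2 ^ s) n := by
    intro n _
    have h2 := J_le_En th lam (2 ^ s) n hN hth.le hl ⟨R, b n, β n⟩
    rw [J_eq th lam (2 ^ s) n _ hN hl] at h2
    have h3 : (⟨R, b n, β n⟩ : Ex).nm ≤ R := by
      unfold Ex.nm
      calc ∑ i ∈ range R, ‖b n i‖ ≤ ∑ i ∈ range R, (1 : ℝ) := sum_le_sum fun i _ => hb n i
        _ = R := by simp
    have h4 : 2 * th * (⟨R, b n, β n⟩ : Ex).nm ≤ 2 * th * R :=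
      mul_le_mul_of_nonneg_left h3 (by positivity)
    unfold dm Ex.f at h2
    simp only at h2
    linarith
  have h5 := EB.lg_mono h1
  rw [EB.lg_sub, EB.lg_const] at h5
  have h6 := EB.log_le_lg_one X
  have h7 : Real.log X ≤ EB.lg X (fun _ => 1) :=
    le_trans (Real.log_le_log (by linarith) (by linarith)) h6
  unfold te
  rcases le_or_gt (2 * th * R) 1 with h | h
  · rw [le_div_iff₀ hlog]
    have h8 : (1 - 2 * th * R) * Real.log X ≤ (1 - 2 * th * R) * EB.lg X (fun _ => 1) :=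
      mul_le_mul_of_nonneg_left h7 (by linarith)
    have h9 : EB.lg X (fun n => (∑ m ∈ Ioc n (n + 2 ^ s),
      ‖(lam m : ℂ) - ∑ r ∈ range R, b n r * ee (β n r * m)‖ ^ 2) / ((2 ^ s : ℕ) : ℝ)) ≤
      e * Real.log X := hB
    linarith
  · have h8 : 0 ≤ EB.lg X (fun n => En th lam 1 (2 ^ s) n) :=
      EB.lg_nonneg fun n _ => En_nonneg th lam _ n hN hth.le hl
    have h9 : 0 ≤ EB.lg X (fun n => En th lam 1 (2 ^ s) n) / Real.log X := by positivity
    linarith

/-! ## sampling -/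

/-- a convex combination of vectors is approximated by means of few of them (greedy choice) -/
lemma sample (k N n : ℕ) (p : ℕ → ℝ) (v : ℕ → ℕ → ℂ) (A : ℝ)
    (hp : ∀ i ∈ range k, 0 ≤ p i) (hs : ∑ i ∈ range k, p i = 1)
    (hv : ∀ i ∈ range k, ∀ m, ‖v i m‖ ≤ A) (M : ℕ) :
    ∃ c : ℕ → ℕ, (∀ j, c j ∈ range k) ∧
      ∑ m ∈ Ioc n (n + N), ‖∑ j ∈ range M, (v (c j) m - ∑ i ∈ range k, (p i : ℂ) * v i m)‖ ^ 2
        ≤ 4 * A ^ 2 * M * N := by
  have hk : (range k).Nonempty := by
    by_contra h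
    rw [not_nonempty_iff_eq_empty] at h
    rw [h] at hs; simp at hs
  obtain ⟨i₀, hi₀⟩ := hk
  set h : ℕ → ℂ := fun m => ∑ i ∈ range k, (p i : ℂ) * v i m with hh
  have hhA : ∀ m, ‖h m‖ ≤ A := by
    intro m
    calc ‖h m‖ ≤ ∑ i ∈ range k, ‖(p i : ℂ) * v i m‖ := norm_sum_le _ _
      _ ≤ ∑ i ∈ range k, p i * A := by
          apply sum_le_sum
          intro i hi
          rw [norm_mul, Complex.norm_real, Real.norm_of_nonneg (hp i hi)]
          exact mul_le_mul_of_nonneg_left (hv i hi m) (hp i hi)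
      _ = A := by rw [← sum_mul, hs, one_mul]
  induction M with
  | zero => exact ⟨fun _ => i₀, fun _ => hi₀, by simp⟩
  | succ M ih =>
    obtain ⟨c, hc, hc2⟩ := ih
    set S : ℕ → ℂ := fun m => ∑ j ∈ range M, (v (c j) m - h m) with hS
    -- the inner products
    have hex : ∃ i ∈ range k, ∑ m ∈ Ioc n (n + N),
        ((starRingEnd ℂ) (S m) * (v i m - h m)).re ≤ 0 := by
      by_contra hne
      push Not at hne
      have h1 : ∑ i ∈ range k, p i * ∑ m ∈ Ioc n (n + N),
          ((starRingEnd ℂ) (S m) * (v i m - h m)).re = 0 := by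
        have h2 : ∀ i ∈ range k, p i * ∑ m ∈ Ioc n (n + N),
            ((starRingEnd ℂ) (S m) * (v i m - h m)).re =
            ∑ m ∈ Ioc n (n + N), ((starRingEnd ℂ) (S m) * ((p i : ℂ) * v i m - p i * h m)).re := by
          intro i _
          rw [mul_sum]
          apply sum_congr rfl
          intro m _
          rw [← Complex.re_ofReal_mul]
          congr 1; ring
        rw [sum_congr rfl h2, sum_comm]
        apply sum_eq_zero
        intro m _
        rw [← Complex.re_sum, ← mul_sum, sum_sub_distrib, ← sum_mul]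
        have h3 : ∑ i ∈ range k, (p i : ℂ) = 1 := by
          rw [← Complex.ofReal_sum, hs]; simp
        rw [h3, one_mul]
        simp [hh]
      have h4 : 0 < ∑ i ∈ range k, p i * ∑ m ∈ Ioc n (n + N),
          ((starRingEnd ℂ) (S m) * (v i m - h m)).re := by
        apply sum_pos'
        · intro i hi
          exact mul_nonneg (hp i hi) (hne i hi).le
        · by_contra h5
          push Not at h5
          have h6 : ∀ i ∈ range k, p i = 0 := by
            intro i hi
            have h7 := h5 i hi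
            have h8 := hp i hi
            by_contra h9
            have h10 : 0 < p i := lt_of_le_of_ne h8 (Ne.symm h9)
            have := mul_pos h10 (hne i hi)
            linarith
          rw [sum_eq_zero h6] at hs
          norm_num at hs
      linarith
    obtain ⟨i, hi, hi2⟩ := hex
    refine ⟨fun j => if j = M then i else c j, ?_, ?_⟩
    · intro j
      by_cases hj : j = M
      · simp only [hj, if_true]; exact hi
      · simp only [hj, if_false]; exact hc j
    · have h1 : ∀ m, ∑ j ∈ range (M + 1), (v (if j = M then i else c j) m - h m) =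
          S m + (v i m - h m) := by
        intro m
        rw [sum_range_succ]
        simp only [if_true]
        congr 1
        apply sum_congr rfl
        intro j hj
        rw [mem_range] at hj
        rw [if_neg (by omega)]
      have h2 : ∀ m ∈ Ioc n (n + N), ‖∑ j ∈ range (M + 1),
          (v (if j = M then i else c j) m - h m)‖ ^ 2 ≤
          ‖S m‖ ^ 2 + 2 * ((starRingEnd ℂ) (S m) * (v i m - h m)).re + 4 * A ^ 2 := by
        intro m _
        rw [h1 m]
        have h3 : ‖v i m - h m‖ ≤ 2 * A := by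
          have := norm_sub_le (v i m) (h m)
          have h4 := hv i hi m
          have h5 := hhA m
          linarith
        have h4 : ‖v i m - h m‖ ^ 2 ≤ 4 * A ^ 2 := by
          have := pow_le_pow_left₀ (norm_nonneg _) h3 2
          linarith [this, (by ring : (2 * A) ^ 2 = 4 * A ^ 2)]
        have h5 : ‖S m + (v i m - h m)‖ ^ 2 = ‖S m‖ ^ 2 +
            2 * ((starRingEnd ℂ) (S m) * (v i m - h m)).re + ‖v i m - h m‖ ^ 2 := by
          rw [Complex.sq_norm, Complex.sq_norm, Complex.sq_norm, Complex.normSq_apply,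
            Complex.normSq_apply, Complex.normSq_apply]
          simp only [Complex.add_re, Complex.add_im, Complex.mul_re, Complex.conj_re,
            Complex.conj_im]
          ring
        rw [h5]; linarith
      calc ∑ m ∈ Ioc n (n + N), ‖∑ j ∈ range (M + 1),
          (v (if j = M then i else c j) m - h m)‖ ^ 2
          ≤ ∑ m ∈ Ioc n (n + N), (‖S m‖ ^ 2 +
            2 * ((starRingEnd ℂ) (S m) * (v i m - h m)).re + 4 * A ^ 2) := sum_le_sum h2
        _ = ∑ m ∈ Ioc n (n + N), ‖S m‖ ^ 2 +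
            2 * ∑ m ∈ Ioc n (n + N), ((starRingEnd ℂ) (S m) * (v i m - h m)).re +
            N * (4 * A ^ 2) := by
            rw [sum_add_distrib, sum_add_distrib, mul_sum]
            congr 1
            simp
        _ ≤ 4 * A ^ 2 * M * N + 2 * 0 + N * (4 * A ^ 2) := by
            have := hc2
            have h6 : 2 * ∑ m ∈ Ioc n (n + N), ((starRingEnd ℂ) (S m) * (v i m - h m)).re ≤
              2 * 0 := by linarith
            linarith
        _ = 4 * A ^ 2 * ((M + 1 : ℕ) : ℝ) * N := by push_cast; ring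

/-- the optimal sum of a window is near a sum of boundedly many exponentials -/
lemma near (th τ : ℝ) (hth : 0 < th) (hτ : 0 < τ) (hτ1 : τ ≤ 1) : ∃ R' : ℕ, ∀ (lam : ℕ → ℝ)
    (N n : ℕ), 0 < N → (∀ m, lam m = 1 ∨ lam m = -1) →
    ∃ (b : ℕ → ℂ) (β : ℕ → ℝ), (∀ r, ‖b r‖ ≤ 1) ∧
      dm lam N n (fun m => ∑ r ∈ range R', b r * ee (β r * m)) ≤
        1 - En th lam 1 N n + τ := by
  set M : ℕ := ⌈128 / (τ ^ 2 * th ^ 2)⌉₊ + ⌈1 / th⌉₊ + 1 with hM
  have hM0 : (0 : ℝ) < M := by rw [hM]; push_cast; positivity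
  have hM1 : 128 / (τ ^ 2 * th ^ 2) ≤ M := by
    have h1 := Nat.le_ceil (128 / (τ ^ 2 * th ^ 2))
    rw [hM]; push_cast
    have h2 : (0 : ℝ) ≤ (⌈1 / th⌉₊ : ℝ) := by positivity
    linarith
  have hM2 : 1 / th ≤ M := by
    have h1 := Nat.le_ceil (1 / th)
    rw [hM]; push_cast
    have h2 : (0 : ℝ) ≤ (⌈128 / (τ ^ 2 * th ^ 2)⌉₊ : ℝ) := by positivity
    linarith
  refine ⟨M, fun lam N n hN hl => ?_⟩
  have hN0 : (0 : ℝ) < N := by exact_mod_cast hN
  obtain ⟨g, hg⟩ : ∃ g : Ex, En th lam 1 N n - τ / 8 < J th lam 1 N n g := by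
    apply exists_lt_of_lt_ciSup
    show En th lam 1 N n - τ / 8 < En th lam 1 N n
    linarith
  have hJ := J_eq th lam N n g hN hl
  have hE0 := En_nonneg th lam N n hN hth.le hl
  have hd0 := dm_nonneg lam N n g.f
  have hnm := nm_nonneg g
  have hdg : dm lam N n g.f ≤ 1 - En th lam 1 N n + τ / 8 := by
    have : 0 ≤ 2 * th * g.nm := by positivity
    linarith
  have hnm1 : g.nm ≤ 1 / th := by
    rw [le_div_iff₀ hth]
    nlinarith
  rcases eq_or_lt_of_le hnm with h0 | h0
  · refine ⟨fun _ => 0, fun _ => 0, fun _ => by simp, ?_⟩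
    have h1 : ∀ i ∈ range g.k, ‖g.c i‖ = 0 := by
      intro i hi
      exact (sum_eq_zero_iff_of_nonneg (fun i _ => norm_nonneg (g.c i))).1 h0.symm i hi
    have h2 : ∀ m, g.f m = 0 := by
      intro m
      unfold Ex.f
      apply sum_eq_zero
      intro i hi
      rw [norm_eq_zero.1 (h1 i hi), zero_mul]
    have h3 : dm lam N n (fun m => ∑ r ∈ range M, (0 : ℂ) * ee (0 * m)) =
        dm lam N n g.f := by
      unfold dm
      simp [h2]
    have h4 : dm lam N n (fun m => ∑ r ∈ range M, (fun _ => (0 : ℂ)) r *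
        ee ((fun _ => (0 : ℝ)) r * (m : ℝ))) = dm lam N n g.f := h3
    rw [h4]; linarith
  · set p : ℕ → ℝ := fun i => ‖g.c i‖ / g.nm with hp
    set v : ℕ → ℕ → ℂ := fun i m => (g.nm : ℂ) * (g.c i / (‖g.c i‖ : ℂ)) * ee (g.a i * m) with hv
    have hu : ∀ i, ‖g.c i / (‖g.c i‖ : ℂ)‖ ≤ 1 := by
      intro i
      rw [norm_div, Complex.norm_real, Real.norm_of_nonneg (norm_nonneg _)]
      exact div_self_le_one _
    have hnmC : (g.nm : ℂ) ≠ 0 := by exact_mod_cast h0.ne'
    have hpv : ∀ i m, (p i : ℂ) * v i m = g.c i * ee (g.a i * m) := by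
      intro i m
      simp only [hp, hv]
      push_cast
      by_cases hc : g.c i = 0
      · simp [hc]
      · have hc' : (‖g.c i‖ : ℂ) ≠ 0 := by
          exact_mod_cast (norm_ne_zero_iff.2 hc)
        field_simp
    have hgf : ∀ m, ∑ i ∈ range g.k, (p i : ℂ) * v i m = g.f m := by
      intro m
      unfold Ex.f
      exact sum_congr rfl fun i _ => hpv i m
    obtain ⟨c, _, hc⟩ := sample g.k N n p v g.nm (fun i _ => by simp only [hp]; positivity)
      (by simp only [hp]; rw [← sum_div]; exact div_self h0.ne')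
      (fun i _ m => by
        simp only [hv]
        rw [norm_mul, norm_mul, norm_ee, mul_one, Complex.norm_real, Real.norm_of_nonneg hnm]
        calc g.nm * ‖g.c i / (‖g.c i‖ : ℂ)‖ ≤ g.nm * 1 :=
              mul_le_mul_of_nonneg_left (hu i) hnm
          _ = g.nm := mul_one _) M
    simp only [hgf] at hc
    refine ⟨fun j => (g.nm / M : ℝ) * (g.c (c j) / (‖g.c (c j)‖ : ℂ)), fun j => g.a (c j),
      fun j => ?_, ?_⟩
    · show ‖((g.nm / M : ℝ) : ℂ) * (g.c (c j) / (‖g.c (c j)‖ : ℂ))‖ ≤ 1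
      rw [norm_mul, Complex.norm_real, Real.norm_of_nonneg (by positivity)]
      have h1 : g.nm / M ≤ 1 := by
        rw [div_le_one hM0]; linarith
      calc g.nm / M * ‖g.c (c j) / (‖g.c (c j)‖ : ℂ)‖ ≤ 1 * 1 :=
            mul_le_mul h1 (hu _) (norm_nonneg _) (by norm_num)
        _ = 1 := by norm_num
    · set G : ℕ → ℂ := fun m => ∑ r ∈ range M, (fun j => ((g.nm / M : ℝ) : ℂ) *
        (g.c (c j) / (‖g.c (c j)‖ : ℂ))) r * ee ((fun j => g.a (c j)) r * (m : ℝ)) with hG
      have hMC : (M : ℂ) ≠ 0 := by exact_mod_cast hM0.ne'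
      have h1 : ∀ m, G m - g.f m = (∑ j ∈ range M, (v (c j) m - g.f m)) / M := by
        intro m
        rw [sum_sub_distrib, sum_const, card_range, nsmul_eq_mul, sub_div,
          mul_div_cancel_left₀ _ hMC, sum_div]
        congr 1
        simp only [hG, hv]
        apply sum_congr rfl
        intro j _
        push_cast
        field_simp
      have h2 : ∀ m, ‖g.f m - G m‖ ^ 2 =
          ‖∑ j ∈ range M, (v (c j) m - g.f m)‖ ^ 2 / (M : ℝ) ^ 2 := by
        intro m
        rw [norm_sub_rev, h1 m, norm_div, Complex.norm_natCast, div_pow]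
      have hμ : (∑ m ∈ Ioc n (n + N), ‖g.f m - G m‖ ^ 2) / N ≤ 4 / (th ^ 2 * M) := by
        rw [sum_congr rfl fun m _ => h2 m, ← sum_div, div_div, div_le_div_iff₀ (by positivity)
          (by positivity)]
        have h3 : g.nm ^ 2 ≤ (1 / th) ^ 2 := pow_le_pow_left₀ hnm hnm1 2
        have h4 : g.nm ^ 2 * th ^ 2 ≤ 1 := by
          calc g.nm ^ 2 * th ^ 2 ≤ (1 / th) ^ 2 * th ^ 2 :=
                mul_le_mul_of_nonneg_right h3 (by positivity)
            _ = 1 := by field_simp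
        calc (∑ m ∈ Ioc n (n + N), ‖∑ j ∈ range M, (v (c j) m - g.f m)‖ ^ 2) * (th ^ 2 * M)
            ≤ (4 * g.nm ^ 2 * M * N) * (th ^ 2 * M) :=
              mul_le_mul_of_nonneg_right hc (by positivity)
          _ = (g.nm ^ 2 * th ^ 2) * (4 * M ^ 2 * N) := by ring
          _ ≤ 1 * (4 * M ^ 2 * N) := mul_le_mul_of_nonneg_right h4 (by positivity)
          _ = 4 * ((M : ℝ) ^ 2 * N) := by ring
      have hμ2 : 4 / (th ^ 2 * M) ≤ τ ^ 2 / 32 := by
        rw [div_le_div_iff₀ (by positivity) (by norm_num)]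
        rw [div_le_iff₀ (by positivity)] at hM1
        nlinarith
      have h5 : ∀ m, ‖(lam m : ℂ) - G m‖ ^ 2 ≤ (1 + τ / 8) * ‖(lam m : ℂ) - g.f m‖ ^ 2 +
          (1 + 8 / τ) * ‖g.f m - G m‖ ^ 2 := by
        intro m
        have h6 : ‖(lam m : ℂ) - G m‖ ≤ ‖(lam m : ℂ) - g.f m‖ + ‖g.f m - G m‖ := by
          have := norm_add_le ((lam m : ℂ) - g.f m) (g.f m - G m)
          rwa [sub_add_sub_cancel] at this
        have h7 := pow_le_pow_left₀ (norm_nonneg _) h6 2
        set x := ‖(lam m : ℂ) - g.f m‖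
        set y := ‖g.f m - G m‖
        have h8 : 0 ≤ τ / 8 * (x - 8 / τ * y) ^ 2 := by positivity
        have h9 : τ / 8 * (x - 8 / τ * y) ^ 2 =
            τ / 8 * x ^ 2 - 2 * x * y + 8 / τ * y ^ 2 := by
          field_simp
          ring
        nlinarith
      have h6 : dm lam N n G ≤ (1 + τ / 8) * dm lam N n g.f + (1 + 8 / τ) * (τ ^ 2 / 32) := by
        unfold dm
        calc (∑ m ∈ Ioc n (n + N), ‖(lam m : ℂ) - G m‖ ^ 2) / N
            ≤ (∑ m ∈ Ioc n (n + N), ((1 + τ / 8) * ‖(lam m : ℂ) - g.f m‖ ^ 2 +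
              (1 + 8 / τ) * ‖g.f m - G m‖ ^ 2)) / N :=
              div_le_div_of_nonneg_right (sum_le_sum fun m _ => h5 m) hN0.le
          _ = (1 + τ / 8) * ((∑ m ∈ Ioc n (n + N), ‖(lam m : ℂ) - g.f m‖ ^ 2) / N) +
              (1 + 8 / τ) * ((∑ m ∈ Ioc n (n + N), ‖g.f m - G m‖ ^ 2) / N) := by
              rw [sum_add_distrib, ← mul_sum, ← mul_sum]; ring
          _ ≤ _ := by
              apply add_le_add le_rfl
              exact mul_le_mul_of_nonneg_left (hμ.trans hμ2) (by positivity)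
      have h7 : (1 + 8 / τ) * (τ ^ 2 / 32) = τ ^ 2 / 32 + τ / 4 := by
        field_simp
        ring
      have h8 : dm lam N n g.f ≤ 2 := by linarith
      show dm lam N n G ≤ _
      nlinarith

/-- LNK. Energy near one gives structure on windows. -/
theorem lnk2 (th δ : ℝ) (hth : 0 < th) (hδ : 0 < δ) : ∃ R' X₀ : ℕ, ∀ (s X : ℕ) (lam : ℕ → ℝ),
    X₀ ≤ X → (∀ n, lam n = 1 ∨ lam n = -1) → 1 - δ ≤ te th lam X s →
    EB.Base lam R' (2 ^ s) (2 * δ) X := by
  set τ : ℝ := min (δ / 4) 1 with hτ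
  have hτ0 : 0 < τ := lt_min (by positivity) one_pos
  have hτ1 : τ ≤ 1 := min_le_right _ _
  have hτ2 : τ ≤ δ / 4 := min_le_left _ _
  obtain ⟨R', hR⟩ := near th τ hth hτ0 hτ1
  refine ⟨R', ⌈Real.exp (4 / δ)⌉₊ + 3, fun s X lam hX hl hte => ?_⟩
  have hX3 : (3 : ℝ) ≤ X := by
    have : 3 ≤ X := le_trans (Nat.le_add_left _ _) hX
    exact_mod_cast this
  have hlog : 0 < Real.log X := Real.log_pos (by linarith)
  have hlog2 : 4 / δ ≤ Real.log X := by
    rw [Real.le_log_iff_exp_le (by linarith)]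
    calc Real.exp (4 / δ) ≤ ⌈Real.exp (4 / δ)⌉₊ := Nat.le_ceil _
      _ ≤ X := by exact_mod_cast le_trans (Nat.le_add_right _ _) hX
  have hN : 0 < 2 ^ s := by positivity
  have hch := fun n => hR lam (2 ^ s) n hN hl
  choose b β hb hd using hch
  refine ⟨b, β, hb, ?_⟩
  have h1 : EB.lg X (fun n => (∑ m ∈ Ioc n (n + 2 ^ s),
      ‖(lam m : ℂ) - ∑ r ∈ range R', b n r * ee (β n r * m)‖ ^ 2) / ((2 ^ s : ℕ) : ℝ)) ≤
      EB.lg X (fun n => (1 + τ) - En th lam 1 (2 ^ s) n) := by
    apply EB.lg_mono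
    intro n _
    have := hd n
    unfold dm at this
    linarith
  rw [EB.lg_sub, EB.lg_const] at h1
  have h2 := EB.lg_one_le X
  have h3 : (1 - δ) * Real.log X ≤ EB.lg X (fun n => En th lam 1 (2 ^ s) n) := by
    unfold te at hte
    rwa [le_div_iff₀ hlog] at hte
  have h4 : (1 + τ) * EB.lg X (fun _ => 1) ≤ (1 + τ) * (1 + Real.log X) :=
    mul_le_mul_of_nonneg_left h2 (by positivity)
  have h5 : 4 ≤ δ * Real.log X := by
    rw [div_le_iff₀ hδ] at hlog2; linarith
  have h6 : τ * Real.log X ≤ δ / 4 * Real.log X := mul_le_mul_of_nonneg_right hτ2 hlog.le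
  refine h1.trans ?_
  nlinarith

/-! ## windows inside windows -/

/-- from windows of length `H` to windows of length `N ≤ H / 2` -/
theorem subw (lam : ℕ → ℝ) (R H N X : ℕ) (e : ℝ) (hN : 1 ≤ N) (hH : 2 * N ≤ H)
    (hl : ∀ n, |lam n| ≤ 1) (hB : EB.Base lam R H e X)
    (hx : 3 * (1 + (R : ℝ)) ^ 2 * EB.hs H ≤ e * Real.log X) :
    EB.Base lam R N (3 * e) X := by
  obtain ⟨b, β, hb, hB⟩ := hB
  have hN0 : (0 : ℝ) < N := by exact_mod_cast hN
  have hH0 : (0 : ℝ) < H := by
    have : 0 < H := by omega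
    exact_mod_cast this
  set F : ℕ → ℕ → ℝ := fun n m => ‖(lam m : ℂ) - ∑ r ∈ range R, b n r * ee (β n r * m)‖ ^ 2 with hF
  set W : ℝ := (1 + (R : ℝ)) ^ 2 with hW
  have hF0 : ∀ n m, 0 ≤ F n m := fun n m => by simp only [hF]; positivity
  have hF1 : ∀ n m, F n m ≤ W := by
    intro n m
    simp only [hF, hW]
    apply pow_le_pow_left₀ (norm_nonneg _)
    calc ‖(lam m : ℂ) - ∑ r ∈ range R, b n r * ee (β n r * m)‖
        ≤ ‖(lam m : ℂ)‖ + ‖∑ r ∈ range R, b n r * ee (β n r * m)‖ := norm_sub_le _ _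
      _ ≤ 1 + R := by
          apply add_le_add
          · rw [Complex.norm_real]; exact hl m
          · calc ‖∑ r ∈ range R, b n r * ee (β n r * m)‖
                ≤ ∑ r ∈ range R, ‖b n r * ee (β n r * m)‖ := norm_sum_le _ _
              _ ≤ ∑ r ∈ range R, (1 : ℝ) := by
                  apply sum_le_sum
                  intro r _
                  rw [norm_mul, norm_ee, mul_one]
                  exact hb n r
              _ = R := by simp
  set c : ℕ → ℕ → ℝ := fun n i => (∑ m ∈ Ioc (n + i) (n + i + N), F n m) / N with hc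
  have hc0 : ∀ n i, 0 ≤ c n i := fun n i => div_nonneg (sum_nonneg fun m _ => hF0 n m) hN0.le
  have hc1 : ∀ n i, c n i ≤ W := by
    intro n i
    simp only [hc]
    rw [div_le_iff₀ hN0]
    calc ∑ m ∈ Ioc (n + i) (n + i + N), F n m ≤ ∑ m ∈ Ioc (n + i) (n + i + N), W :=
          sum_le_sum fun m _ => hF1 n m
      _ = W * N := by simp [mul_comm]
  set G : ℕ → ℕ → ℝ := fun i n => if i ≤ n then c (n - i) i else W with hG
  have hGi : ∀ i n, G i (n + i) = c n i := by
    intro i n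
    simp only [hG]
    rw [if_pos (by omega), Nat.add_sub_cancel]
  have hG1 : ∀ i n, |G i n| ≤ W := by
    intro i n
    have hW0 : 0 ≤ W := by simp only [hW]; positivity
    simp only [hG]
    split_ifs
    · rw [abs_of_nonneg (hc0 _ _)]; exact hc1 _ _
    · rw [abs_of_nonneg hW0]
  set L : ℕ := H - N + 1 with hL
  have hL0 : (0 : ℝ) < L := by
    have : 0 < L := by omega
    exact_mod_cast this
  have hLH : (H : ℝ) ≤ 2 * L := by
    have : H ≤ 2 * L := by omega
    exact_mod_cast this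
  -- the best choice
  have hex : ∀ n, ∃ i ≤ n, (∑ m ∈ Ioc n (n + N), F (n - i) m) / N ≤
      (∑ j ∈ range L, G j n) / L := by
    intro n
    obtain ⟨j, hj, hj2⟩ : ∃ j ∈ range L, G j n ≤ (∑ j ∈ range L, G j n) / L := by
      apply exists_le_of_sum_le (nonempty_range_iff.2 (by omega))
      rw [sum_const, card_range, nsmul_eq_mul, mul_div_cancel₀ _ hL0.ne']
    by_cases h : j ≤ n
    · refine ⟨j, h, ?_⟩
      have h1 : G j n = (∑ m ∈ Ioc n (n + N), F (n - j) m) / N := by
        simp only [hG, hc]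
        rw [if_pos h, Nat.sub_add_cancel h]
      rw [← h1]; exact hj2
    · refine ⟨0, Nat.zero_le _, ?_⟩
      have h1 : G j n = W := by simp only [hG]; rw [if_neg h]
      have h2 := hc1 n 0
      simp only [hc, add_zero] at h2
      rw [Nat.sub_zero]
      linarith
  choose i hi hi2 using hex
  refine ⟨fun n r => b (n - i n) r, fun n r => β (n - i n) r, fun n r => hb _ r, ?_⟩
  have h1 : EB.lg X (fun n => (∑ m ∈ Ioc n (n + N),
      ‖(lam m : ℂ) - ∑ r ∈ range R, b (n - i n) r * ee (β (n - i n) r * m)‖ ^ 2) / N) ≤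
      EB.lg X (fun n => (1 / (L : ℝ)) * ∑ j ∈ range L, G j n) := by
    apply EB.lg_mono
    intro n _
    have := hi2 n
    simp only [hF] at this
    rw [one_div, inv_mul_eq_div]
    exact this
  rw [EB.lg_mul, EB.lg_sum] at h1
  have h2 : ∀ j ∈ range L, EB.lg X (G j) ≤ EB.lg X (fun n => c n j) + 3 * W * EB.hs H := by
    intro j hj
    rw [mem_range] at hj
    have h3 := EB.lg_shift X j (G j) (hG1 j)
    have h4 : (fun n => G j (n + j)) = fun n => c n j := funext fun n => hGi j n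
    rw [h4] at h3
    have h5 := (abs_le.1 h3).1
    have h6 : EB.hs j ≤ EB.hs H := EB.hs_mono (by omega)
    have hW0 : 0 ≤ W := by simp only [hW]; positivity
    have h7 : 3 * W * EB.hs j ≤ 3 * W * EB.hs H := mul_le_mul_of_nonneg_left h6 (by positivity)
    linarith
  have h3 : (1 / (L : ℝ)) * ∑ j ∈ range L, EB.lg X (G j) ≤
      (1 / (L : ℝ)) * ∑ j ∈ range L, EB.lg X (fun n => c n j) + 3 * W * EB.hs H := by
    calc (1 / (L : ℝ)) * ∑ j ∈ range L, EB.lg X (G j) ≤
        (1 / (L : ℝ)) * ∑ j ∈ range L, (EB.lg X (fun n => c n j) + 3 * W * EB.hs H) :=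
          mul_le_mul_of_nonneg_left (sum_le_sum h2) (by positivity)
      _ = _ := by
          rw [sum_add_distrib, sum_const, card_range, nsmul_eq_mul]
          field_simp
  have h4 : (1 / (L : ℝ)) * ∑ j ∈ range L, EB.lg X (fun n => c n j) ≤
      2 * EB.lg X (fun n => (∑ m ∈ Ioc n (n + H), F n m) / H) := by
    rw [← EB.lg_sum, ← EB.lg_mul, ← EB.lg_mul]
    apply EB.lg_mono
    intro n _
    have h5 : ∑ j ∈ range L, ∑ m ∈ Ioc (n + j) (n + j + N), F n m ≤
        N * ∑ m ∈ Ioc n (n + H), F n m := by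
      have h6 : ∀ j, ∑ m ∈ Ioc (n + j) (n + j + N), F n m =
          ∑ r ∈ range N, F n (n + j + 1 + r) := by
        intro j
        apply sum_nbij' (fun m => m - (n + j + 1)) (fun r => n + j + 1 + r)
        · intro m hm; rw [mem_Ioc] at hm; rw [mem_range]; omega
        · intro r hr; rw [mem_range] at hr; rw [mem_Ioc]; omega
        · intro m hm; rw [mem_Ioc] at hm; show n + j + 1 + (m - (n + j + 1)) = m; omega
        · intro r _; show n + j + 1 + r - (n + j + 1) = r; omega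
        · intro m hm; rw [mem_Ioc] at hm
          have : n + j + 1 + (m - (n + j + 1)) = m := by omega
          rw [this]
      rw [sum_congr rfl fun j _ => h6 j, sum_comm]
      calc ∑ r ∈ range N, ∑ j ∈ range L, F n (n + j + 1 + r)
          ≤ ∑ r ∈ range N, ∑ m ∈ Ioc n (n + H), F n m := by
            apply sum_le_sum
            intro r hr
            rw [mem_range] at hr
            have h7 : ∑ j ∈ range L, F n (n + j + 1 + r) =
                ∑ m ∈ (range L).image (fun j => n + j + 1 + r), F n m := by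
              rw [sum_image]
              intro x _ y _ hxy
              have : n + x + 1 + r = n + y + 1 + r := hxy
              omega
            rw [h7]
            apply sum_le_sum_of_subset_of_nonneg
            · intro m hm
              rw [mem_image] at hm
              obtain ⟨j, hj, rfl⟩ := hm
              rw [mem_range] at hj
              rw [mem_Ioc]; omega
            · intro m _ _; exact hF0 n m
        _ = N * ∑ m ∈ Ioc n (n + H), F n m := by simp
    have h6 : 0 ≤ ∑ m ∈ Ioc n (n + H), F n m := sum_nonneg fun m _ => hF0 n m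
    simp only [hc]
    rw [← sum_div]
    calc 1 / (L : ℝ) * ((∑ j ∈ range L, ∑ m ∈ Ioc (n + j) (n + j + N), F n m) / N)
        ≤ 1 / (L : ℝ) * ((N * ∑ m ∈ Ioc n (n + H), F n m) / N) := by
          apply mul_le_mul_of_nonneg_left _ (by positivity)
          exact div_le_div_of_nonneg_right h5 hN0.le
      _ = (∑ m ∈ Ioc n (n + H), F n m) / L := by field_simp
      _ ≤ 2 * ((∑ m ∈ Ioc n (n + H), F n m) / H) := by
          rw [mul_div_assoc', div_le_div_iff₀ hL0 hH0]
          nlinarith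
  have h5 : EB.lg X (fun n => (∑ m ∈ Ioc n (n + H), F n m) / H) ≤ e * Real.log X := hB
  have h6 : EB.lg X (fun n => (∑ m ∈ Ioc n (n + N),
      ‖(lam m : ℂ) - ∑ r ∈ range R, b (n - i n) r * ee (β (n - i n) r * m)‖ ^ 2) / N) ≤
      3 * e * Real.log X := by
    have : 3 * W * EB.hs H ≤ e * Real.log X := hx
    linarith
  exact h6

end Pool.Agent.H93.GS
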